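import Pool.Agent.Lib.MP_d55432_al.G2.Iface

/-!
# Module NILA: nilpotent elements which kill a vector of nonzero norm
-/

namespace Pool.Agent.Lib.MP_d55432_al.G2.H17

open Matrix LieAlgebra

variable {K : Type*} [Field K]

/-! ### Small facts on the forms -/

theorem bb_br (x y z : V7 K) : bb (br x y) z = -bb y (br x z) := by
  simp [bb, br]
  ring

theorem bb_zero_left (y : V7 K) : bb 0 y = 0 := by simp [bb]

theorem bb_zero_right (y : V7 K) : bb y 0 = 0 := by simp [bb]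

theorem bb_add_left (x y z : V7 K) : bb (x + y) z = bb x z + bb y z := by
  simp only [bb, Pi.add_apply]
  ring

theorem bb_add_right (x y z : V7 K) : bb x (y + z) = bb x y + bb x z := by
  simp only [bb, Pi.add_apply]
  ring

theorem bb_sub_right (x y z : V7 K) : bb x (y - z) = bb x y - bb x z := by
  simp only [bb, Pi.sub_apply]
  ring

theorem bb_sub_left (x y z : V7 K) : bb (x - y) z = bb x z - bb y z := by
  simp only [bb, Pi.sub_apply]
  ring

theorem bb_smul_left (c : K) (x y : V7 K) : bb (c • x) y = c * bb x y := by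
  simp only [bb, Pi.smul_apply, smul_eq_mul]
  ring

theorem bb_smul_right (c : K) (x y : V7 K) : bb x (c • y) = c * bb x y := by
  simp only [bb, Pi.smul_apply, smul_eq_mul]
  ring

theorem bb_sum_left {r : ℕ} (f : Fin r → V7 K) (y : V7 K) :
    bb (∑ i, f i) y = ∑ i, bb (f i) y := by
  induction r with
  | zero => simp [bb_zero_left]
  | succ r ih => rw [Fin.sum_univ_succ, Fin.sum_univ_succ, bb_add_left, ih]

theorem bb_sum_right {r : ℕ} (f : Fin r → V7 K) (y : V7 K) :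
    bb y (∑ i, f i) = ∑ i, bb y (f i) := by
  rw [bb_comm, bb_sum_left]
  exact Finset.sum_congr rfl fun i _ => bb_comm _ _

theorem qq_add (x y : V7 K) : qq (x + y) = qq x + qq y + bb x y := by
  simp only [bb, qq, Pi.add_apply]
  ring

theorem qq_smul (c : K) (x : V7 K) : qq (c • x) = c ^ 2 * qq x := by
  simp only [qq, Pi.smul_apply, smul_eq_mul]
  ring

theorem nondeg [CharZero K] {x : V7 K} (h : ∀ y, bb x y = 0) : x = 0 := by
  have h0 := h (ee 0)
  have h1 := h (ee 4)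
  have h2 := h (ee 5)
  have h3 := h (ee 6)
  have h4 := h (ee 1)
  have h5 := h (ee 2)
  have h6 := h (ee 3)
  simp [bb, ee] at h0 h1 h2 h3 h4 h5 h6
  funext i
  fin_cases i <;> assumption

theorem trace_bb (a b : V7 K) : ∑ j, bb b (ee j) * a j = bb b a := by
  simp [bb, ee, Fin.sum_univ_succ, Pi.single_apply]
  ring

/-- A vector of nonzero norm orthogonal to a small nondegenerate subspace. -/
theorem exists_aniso [CharZero K] {r : ℕ} (a b : Fin r → V7 K)
    (hab : ∀ i j, bb (b i) (a j) = if i = j then 1 else 0)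
    (hs : ∀ w, (∀ i, bb (b i) w = 0) → ∀ i, bb (a i) w = 0) (hr : r ≠ 7) :
    ∃ x, (∀ i, bb (b i) x = 0) ∧ qq x ≠ 0 := by
  by_contra hcon
  push Not at hcon
  set π : V7 K → V7 K := fun w => w - ∑ i, bb (b i) w • a i with hπ
  have hπb : ∀ w j, bb (b j) (π w) = 0 := by
    intro w j
    rw [hπ]
    simp only
    rw [bb_sub_right, bb_sum_right]
    simp [bb_smul_right, hab]
  have hπq : ∀ w, qq (π w) = 0 := fun w => hcon _ (hπb w)
  have hπadd : ∀ w w', π (w + w') = π w + π w' := by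
    intro w w'
    simp only [hπ, bb_add_right, add_smul, Finset.sum_add_distrib]
    abel
  have hπbb : ∀ w w', bb (π w) (π w') = 0 := by
    intro w w'
    have := hπq (w + w')
    rw [hπadd, qq_add, hπq, hπq] at this
    simpa using this
  have hπbb' : ∀ w w', bb (π w) w' = 0 := by
    intro w w'
    have h1 := hπbb w w'
    have h2 : bb (π w) (w' - ∑ i, bb (b i) w' • a i) = bb (π w) w' := by
      rw [bb_sub_right, bb_sum_right]
      have : ∀ i, bb (π w) (bb (b i) w' • a i) = 0 := by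
        intro i
        rw [bb_smul_right, bb_comm (π w), hs _ (hπb w) i, mul_zero]
      rw [Finset.sum_eq_zero fun i _ => this i, sub_zero]
    rw [← h2]
    exact h1
  have hπ0 : ∀ w, w = ∑ i, bb (b i) w • a i := fun w =>
    sub_eq_zero.1 (nondeg (hπbb' w))
  have htr : ∑ j : Fin 7, (ee j : V7 K) j = ∑ j : Fin 7, (∑ i, bb (b i) (ee j) • a i) j :=
    Finset.sum_congr rfl fun j _ => congrFun (hπ0 (ee j)) j
  have h7 : ∑ j : Fin 7, (ee j : V7 K) j = 7 := by
    simp [ee]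
  have hr' : ∑ j : Fin 7, (∑ i, bb (b i) (ee j) • a i) j = r := by
    simp only [Finset.sum_apply, Pi.smul_apply, smul_eq_mul]
    rw [Finset.sum_comm]
    simp only [trace_bb]
    simp [hab]
  rw [h7, hr'] at htr
  exact hr (by exact_mod_cast htr.symm)

section frame

variable [CharZero K]

omit [CharZero K] in
theorem bb_e_of_pos {e u : V7 K} {s : K} (hs : s ≠ 0) (hu : br e u = s • u) : bb e u = 0 := by
  have h := bb_br e u e
  rw [br_self, bb_zero_right, hu, bb_smul_left, neg_zero] at h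
  rw [bb_comm]
  exact (mul_eq_zero.1 h).resolve_left hs

theorem bb_same {e u u' : V7 K} {s : K} (hs : s ≠ 0) (hu : br e u = s • u)
    (hu' : br e u' = s • u') : bb u u' = 0 := by
  have h := bb_br e u u'
  rw [hu, hu', bb_smul_left, bb_smul_right] at h
  have h2 : (2 * s) * bb u u' = 0 := by linear_combination h
  rcases mul_eq_zero.1 h2 with h3 | h3
  · exact absurd h3 (mul_ne_zero two_ne_zero hs)
  · exact h3

/-- Splitting a vector orthogonal to `e`. -/
theorem split {e x : V7 K} (he : qq e = 1) (hx : bb e x = 0) :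
    ∃ u v : V7 K, br e u = (2 : K) • u ∧ br e v = -((2 : K) • v) ∧ x = u + v := by
  have hb : br e (br e x) = (4 : K) • x := by
    rw [br_br, he, hx]
    simp
  refine ⟨(1 / 2 : K) • x + (1 / 4 : K) • br e x, (1 / 2 : K) • x - (1 / 4 : K) • br e x,
    ?_, ?_, ?_⟩
  · rw [br_add_right, br_smul_right, br_smul_right, hb]
    module
  · rw [sub_eq_add_neg, br_add_right, ← neg_smul, br_smul_right, br_smul_right, hb]
    module
  · module

theorem exists_pair {e : V7 K} (he : qq e = 1) {x : V7 K} (hx : bb e x = 0) (hq : qq x ≠ 0) :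
    ∃ u v : V7 K, br e u = (2 : K) • u ∧ br e v = -((2 : K) • v) ∧ bb u v = 1 ∧
      (∀ w, br e w = -((2 : K) • w) → bb x w = 0 → bb u w = 0) ∧
      (∀ w, br e w = (2 : K) • w → bb x w = 0 → bb v w = 0) := by
  obtain ⟨u, v, hu, hv, rfl⟩ := split he hx
  have hv' : br e v = (-2 : K) • v := by rw [hv, neg_smul]
  have huu : qq u = 0 := by
    have := bb_same two_ne_zero hu hu
    rw [bb_self] at this
    simpa using this
  have hvv : qq v = 0 := by
    have := bb_same (neg_ne_zero.2 two_ne_zero) hv' hv'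
    rw [bb_self] at this
    simpa using this
  have hb : bb u v ≠ 0 := by
    rw [qq_add, huu, hvv] at hq
    simpa using hq
  refine ⟨u, (bb u v)⁻¹ • v, hu, ?_, ?_, ?_, ?_⟩
  · rw [br_smul_right, hv]
    module
  · rw [bb_smul_right, inv_mul_cancel₀ hb]
  · intro w hw hxw
    have hw' : br e w = (-2 : K) • w := by rw [hw, neg_smul]
    rw [bb_add_left, bb_same (neg_ne_zero.2 two_ne_zero) hv' hw', add_zero] at hxw
    exact hxw
  · intro w hw hxw
    rw [bb_add_left, bb_same two_ne_zero hu hw, zero_add] at hxw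
    rw [bb_smul_left, hxw, mul_zero]

/-- Transitivity on vectors of norm one. -/
theorem exists_move (hF : FRAME_S K) {e : V7 K} (he : qq e = 1) :
    ∃ g h : M7 K, IsG g h ∧ g *ᵥ ee 0 = e := by
  have hee : bb e e = 2 := by rw [bb_self, he, mul_one]
  obtain ⟨x, hx, hxq⟩ := exists_aniso (K := K) (r := 1) ![e] ![(1 / 2 : K) • e]
    (by
      intro i j
      fin_cases i; fin_cases j
      simp [bb_smul_left, hee])
    (by
      intro w hw i
      fin_cases i
      have := hw 0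
      simpa [bb_smul_left] using this) (by decide)
  have hx0 : bb e x = 0 := by
    have := hx 0
    simpa [bb_smul_left] using this
  obtain ⟨u₁, v₁, hu₁, hv₁, hb₁, -, -⟩ := exists_pair he hx0 hxq
  have hv₁' : br e v₁ = (-2 : K) • v₁ := by rw [hv₁, neg_smul]
  have heu : bb e u₁ = 0 := bb_e_of_pos two_ne_zero hu₁
  have hev : bb e v₁ = 0 := bb_e_of_pos (neg_ne_zero.2 two_ne_zero) hv₁'
  have huu : bb u₁ u₁ = 0 := bb_same two_ne_zero hu₁ hu₁
  have hvv : bb v₁ v₁ = 0 := bb_same (neg_ne_zero.2 two_ne_zero) hv₁' hv₁'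
  obtain ⟨y, hy, hyq⟩ := exists_aniso (K := K) (r := 3) ![e, u₁, v₁] ![(1 / 2 : K) • e, v₁, u₁]
    (by
      intro i j
      fin_cases i <;> fin_cases j <;>
        simp [bb_smul_left, hee, heu, hev, huu, hvv, hb₁, bb_comm v₁ u₁, bb_comm u₁ e,
          bb_comm v₁ e])
    (by
      intro w hw i
      have h0 := hw 0
      have h1 := hw 1
      have h2 := hw 2
      simp [bb_smul_left] at h0 h1 h2
      fin_cases i <;> simp [h0, h1, h2]) (by decide)
  have hy0 : bb e y = 0 := by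
    have := hy 0
    simpa [bb_smul_left] using this
  have hy1 : bb y v₁ = 0 := by
    have := hy 1
    rw [bb_comm]
    simpa using this
  have hy2 : bb y u₁ = 0 := by
    have := hy 2
    rw [bb_comm]
    simpa using this
  obtain ⟨u₂, v₂, hu₂, hv₂, hb₂, hu₂', hv₂'⟩ := exists_pair he hy0 hyq
  obtain ⟨g, h, hG, hg, -⟩ := hF e u₁ u₂ v₁ v₂ he hu₁ hu₂ hv₁ hv₂ hb₁
    (by rw [bb_comm]; exact hv₂' u₁ hu₁ hy2) (hu₂' v₁ hv₁ hy1) hb₂
  exact ⟨g, h, hG, hg⟩

end frame

/-! ### Block matrices -/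

/-- Block diagonal matrices. -/
def bl (c : K) (P Q : Matrix (Fin 3) (Fin 3) K) : M7 K := !![
  c, 0, 0, 0, 0, 0, 0;
  0, P 0 0, P 0 1, P 0 2, 0, 0, 0;
  0, P 1 0, P 1 1, P 1 2, 0, 0, 0;
  0, P 2 0, P 2 1, P 2 2, 0, 0, 0;
  0, 0, 0, 0, Q 0 0, Q 0 1, Q 0 2;
  0, 0, 0, 0, Q 1 0, Q 1 1, Q 1 2;
  0, 0, 0, 0, Q 2 0, Q 2 1, Q 2 2]

theorem bl_mulVec (c : K) (P Q : Matrix (Fin 3) (Fin 3) K) (x : V7 K) :
    bl c P Q *ᵥ x = ![c * x 0,
      P 0 0 * x 1 + P 0 1 * x 2 + P 0 2 * x 3,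
      P 1 0 * x 1 + P 1 1 * x 2 + P 1 2 * x 3,
      P 2 0 * x 1 + P 2 1 * x 2 + P 2 2 * x 3,
      Q 0 0 * x 4 + Q 0 1 * x 5 + Q 0 2 * x 6,
      Q 1 0 * x 4 + Q 1 1 * x 5 + Q 1 2 * x 6,
      Q 2 0 * x 4 + Q 2 1 * x 5 + Q 2 2 * x 6] := by
  funext i
  fin_cases i <;> simp [bl, Matrix.mulVec, dotProduct, Fin.sum_univ_succ] <;> ring

theorem bl_mul (c c' : K) (P P' Q Q' : Matrix (Fin 3) (Fin 3) K) :
    bl c P Q * bl c' P' Q' = bl (c * c') (P * P') (Q * Q') := by
  apply Matrix.toLin'.injective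
  apply LinearMap.ext
  intro x
  rw [Matrix.toLin'_apply, Matrix.toLin'_apply, ← Matrix.mulVec_mulVec, bl_mulVec, bl_mulVec,
    bl_mulVec]
  funext i
  fin_cases i <;> simp [Matrix.mul_apply, Fin.sum_univ_succ] <;> ring

theorem bl_one : bl (1 : K) 1 1 = 1 := by
  ext i j
  fin_cases i <;> fin_cases j <;> simp [bl]

theorem bl_pow (P Q : Matrix (Fin 3) (Fin 3) K) (n : ℕ) :
    bl (0 : K) P Q ^ n = bl (0 ^ n) (P ^ n) (Q ^ n) := by
  induction n with
  | zero => simp [bl_one]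
  | succ n ih => rw [pow_succ, ih, bl_mul, pow_succ, pow_succ, pow_succ]

theorem bl_inj {c c' : K} {P P' Q Q' : Matrix (Fin 3) (Fin 3) K}
    (h : bl c P Q = bl c' P' Q') : P = P' := by
  ext i j
  have := congrFun (congrFun h ⟨i.1 + 1, by omega⟩) ⟨j.1 + 1, by omega⟩
  fin_cases i <;> fin_cases j <;> simpa [bl] using this

/-- Elements of `SL₃` are automorphisms. -/
theorem isG_bl {P : Matrix (Fin 3) (Fin 3) K} (hP : P.det = 1) :
    IsG (bl 1 P P.adjugateᵀ) (bl 1 P.adjugate Pᵀ) := by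
  have h1 : P * P.adjugate = 1 := by rw [Matrix.mul_adjugate, hP, one_smul]
  have h2 : P.adjugate * P = 1 := by rw [Matrix.adjugate_mul, hP, one_smul]
  refine ⟨?_, ?_, ?_⟩
  · rw [bl_mul, h1, ← Matrix.transpose_mul, h1, Matrix.transpose_one, mul_one, bl_one]
  · rw [bl_mul, h2, ← Matrix.transpose_mul, h2, Matrix.transpose_one, mul_one, bl_one]
  · intro x y
    rw [Matrix.det_fin_three] at hP
    funext i
    fin_cases i
    · simp [bl, br, Matrix.mulVec, dotProduct, Fin.sum_univ_succ, Matrix.adjugate_fin_three]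
      linear_combination (-(x 1 * y 4 + x 2 * y 5 + x 3 * y 6 -
        (x 4 * y 1 + x 5 * y 2 + x 6 * y 3))) * hP
    · simp [bl, br, Matrix.mulVec, dotProduct, Fin.sum_univ_succ, Matrix.adjugate_fin_three]
      linear_combination (2 * (P 0 0 * (x 5 * y 6 - x 6 * y 5) + P 0 1 * (x 6 * y 4 - x 4 * y 6) +
        P 0 2 * (x 4 * y 5 - x 5 * y 4))) * hP
    · simp [bl, br, Matrix.mulVec, dotProduct, Fin.sum_univ_succ, Matrix.adjugate_fin_three]
      linear_combination (2 * (P 1 0 * (x 5 * y 6 - x 6 * y 5) + P 1 1 * (x 6 * y 4 - x 4 * y 6) +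
        P 1 2 * (x 4 * y 5 - x 5 * y 4))) * hP
    · simp [bl, br, Matrix.mulVec, dotProduct, Fin.sum_univ_succ, Matrix.adjugate_fin_three]
      linear_combination (2 * (P 2 0 * (x 5 * y 6 - x 6 * y 5) + P 2 1 * (x 6 * y 4 - x 4 * y 6) +
        P 2 2 * (x 4 * y 5 - x 5 * y 4))) * hP
    · simp [bl, br, Matrix.mulVec, dotProduct, Fin.sum_univ_succ, Matrix.adjugate_fin_three]
      ring
    · simp [bl, br, Matrix.mulVec, dotProduct, Fin.sum_univ_succ, Matrix.adjugate_fin_three]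
      ring
    · simp [bl, br, Matrix.mulVec, dotProduct, Fin.sum_univ_succ, Matrix.adjugate_fin_three]
      ring

theorem conj_bl {P M J : Matrix (Fin 3) (Fin 3) K} (hP : P.det = 1) (h : M * P = P * J) :
    Cj (bl 0 J (-Jᵀ)) (bl 0 M (-Mᵀ)) := by
  refine ⟨_, _, isG_bl hP, ?_⟩
  have h1 : P * P.adjugate = 1 := by rw [Matrix.mul_adjugate, hP, one_smul]
  have h2 : P * J * P.adjugate = M := by rw [← h, Matrix.mul_assoc, h1, Matrix.mul_one]
  rw [bl_mul, bl_mul, h2]
  congr 1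
  · ring
  · rw [← h2]
    simp only [Matrix.transpose_mul, Matrix.mul_neg, Matrix.neg_mul, Matrix.mul_assoc]

/-! ### Jordan forms of nilpotent `3 × 3` matrices -/

/-- The matrix with given columns. -/
def cols (a b c : Fin 3 → K) : Matrix (Fin 3) (Fin 3) K := Matrix.of fun i j => ![a i, b i, c i] j

theorem cols_mulVec (a b c d : Fin 3 → K) :
    cols a b c *ᵥ d = d 0 • a + d 1 • b + d 2 • c := by
  funext i
  simp [cols, Matrix.mulVec, dotProduct, Fin.sum_univ_succ]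
  ring

theorem mul_cols (M : Matrix (Fin 3) (Fin 3) K) (a b c : Fin 3 → K) :
    M * cols a b c = cols (M *ᵥ a) (M *ᵥ b) (M *ᵥ c) := by
  ext i j
  fin_cases j <;> simp [cols, Matrix.mulVec, dotProduct, Matrix.mul_apply]

theorem cols_mul_J1 (a b c : Fin 3 → K) :
    cols a b c * !![0, 1, 0; 0, 0, 0; 0, 0, 0] = cols 0 a 0 := by
  ext i j
  fin_cases j <;> simp [cols, Matrix.mul_apply, Fin.sum_univ_succ]

theorem cols_mul_J3 (a b c : Fin 3 → K) :
    cols a b c * !![0, 1, 0; 0, 0, 1; 0, 0, 0] = cols 0 a b := by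
  ext i j
  fin_cases j <;> simp [cols, Matrix.mul_apply, Fin.sum_univ_succ]

theorem det_ne (P : Matrix (Fin 3) (Fin 3) K) (h : ∀ d, P *ᵥ d = 0 → d = 0) : P.det ≠ 0 := by
  intro h0
  obtain ⟨d, hd, hd'⟩ := Matrix.exists_mulVec_eq_zero_iff.2 h0
  exact hd (h d hd')

theorem normalise [IsAlgClosed K] {P M J : Matrix (Fin 3) (Fin 3) K} (hP : P.det ≠ 0)
    (h : M * P = P * J) : ∃ P' : Matrix (Fin 3) (Fin 3) K, P'.det = 1 ∧ M * P' = P' * J := by
  obtain ⟨a, ha⟩ := IsAlgClosed.exists_pow_nat_eq (P.det)⁻¹ (n := 3) (by norm_num)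
  refine ⟨a • P, ?_, ?_⟩
  · rw [Matrix.det_smul, Fintype.card_fin, ha, inv_mul_cancel₀ hP]
  · rw [Matrix.mul_smul, h, Matrix.smul_mul]

theorem jordan3 [IsAlgClosed K] {M : Matrix (Fin 3) (Fin 3) K} (h3 : M ^ 3 = 0) :
    M = 0 ∨ (∃ P : Matrix (Fin 3) (Fin 3) K, P.det = 1 ∧
      M * P = P * !![0, 1, 0; 0, 0, 0; 0, 0, 0]) ∨
    (∃ P : Matrix (Fin 3) (Fin 3) K, P.det = 1 ∧
      M * P = P * !![0, 1, 0; 0, 0, 1; 0, 0, 0]) := by
  by_cases hM : M = 0
  · exact Or.inl hM
  right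
  have ext0 : ∀ A : Matrix (Fin 3) (Fin 3) K, A ≠ 0 → ∃ v, A *ᵥ v ≠ 0 := by
    intro A hA
    by_contra hcon
    push Not at hcon
    apply hA
    apply Matrix.toLin'.injective
    apply LinearMap.ext
    intro v
    rw [Matrix.toLin'_apply, hcon v]
    simp
  by_cases h2 : M ^ 2 = 0
  · left
    obtain ⟨v, hv⟩ := ext0 M hM
    have hMM : ∀ w, M *ᵥ (M *ᵥ w) = 0 := by
      intro w
      rw [Matrix.mulVec_mulVec, ← pow_two, h2, Matrix.zero_mulVec]
    obtain ⟨b, hb, hb'⟩ : ∃ b, M *ᵥ b = 0 ∧ b ∉ Submodule.span K {M *ᵥ v} := by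
      by_contra hcon
      push Not at hcon
      have hle : LinearMap.ker M.toLin' ≤ Submodule.span K {M *ᵥ v} := by
        intro b hb
        exact hcon b (by simpa using hb)
      have hle2 : LinearMap.range M.toLin' ≤ LinearMap.ker M.toLin' := by
        rintro _ ⟨w, rfl⟩
        rw [LinearMap.mem_ker, Matrix.toLin'_apply, Matrix.toLin'_apply, hMM]
      have e1 := Submodule.finrank_mono hle
      have e2 := Submodule.finrank_mono hle2
      have e3 := LinearMap.finrank_range_add_finrank_ker M.toLin'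
      have e4 : Module.finrank K (Submodule.span K {M *ᵥ v}) ≤ 1 := by
        rw [finrank_span_singleton hv]
      have e5 : Module.finrank K (Fin 3 → K) = 3 := by simp
      omega
    refine normalise (P := cols (M *ᵥ v) v b) (det_ne _ ?_) ?_
    · intro d hd
      rw [cols_mulVec] at hd
      have h1 := congrArg (fun w => M *ᵥ w) hd
      simp only [Matrix.mulVec_add, Matrix.mulVec_smul, hMM, hb, smul_zero, zero_add, add_zero,
        Matrix.mulVec_zero] at h1
      have hd1 : d 1 = 0 := (smul_eq_zero.1 h1).resolve_right hv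
      rw [hd1, zero_smul, add_zero] at hd
      have hd2 : d 2 = 0 := by
        by_contra hne
        apply hb'
        rw [Submodule.mem_span_singleton]
        refine ⟨-(d 2)⁻¹ * d 0, ?_⟩
        have : d 2 • b = -(d 0 • M *ᵥ v) := by
          rw [← add_eq_zero_iff_eq_neg, add_comm]
          exact hd
        calc (-(d 2)⁻¹ * d 0) • M *ᵥ v = (d 2)⁻¹ • (-(d 0 • M *ᵥ v)) := by module
          _ = b := by rw [← this, smul_smul, inv_mul_cancel₀ hne, one_smul]
      rw [hd2, zero_smul, add_zero] at hd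
      have hd0 : d 0 = 0 := (smul_eq_zero.1 hd).resolve_right hv
      funext i
      fin_cases i <;> simp [hd0, hd1, hd2]
    · rw [mul_cols, cols_mul_J1, hMM, hb]
  · right
    obtain ⟨v, hv⟩ := ext0 _ h2
    have hv2 : M *ᵥ (M *ᵥ v) ≠ 0 := by
      rwa [Matrix.mulVec_mulVec, ← pow_two]
    have hv3 : ∀ w, M *ᵥ (M *ᵥ (M *ᵥ w)) = 0 := by
      intro w
      rw [Matrix.mulVec_mulVec, Matrix.mulVec_mulVec, Matrix.mul_assoc, ← pow_two, ← pow_succ', h3,
        Matrix.zero_mulVec]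
    refine normalise (P := cols (M *ᵥ (M *ᵥ v)) (M *ᵥ v) v) (det_ne _ ?_) ?_
    · intro d hd
      rw [cols_mulVec] at hd
      have h1 := congrArg (fun w => M *ᵥ (M *ᵥ w)) hd
      simp only [Matrix.mulVec_add, Matrix.mulVec_smul, hv3, smul_zero, zero_add,
        Matrix.mulVec_zero] at h1
      have hd2 : d 2 = 0 := (smul_eq_zero.1 h1).resolve_right hv2
      rw [hd2, zero_smul, add_zero] at hd
      have h1 := congrArg (fun w => M *ᵥ w) hd
      simp only [Matrix.mulVec_add, Matrix.mulVec_smul, hv3, smul_zero, zero_add,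
        Matrix.mulVec_zero] at h1
      have hd1 : d 1 = 0 := (smul_eq_zero.1 h1).resolve_right hv2
      rw [hd1, zero_smul, add_zero] at hd
      have hd0 : d 0 = 0 := (smul_eq_zero.1 hd).resolve_right hv2
      funext i
      fin_cases i <;> simp [hd0, hd1, hd2]
    · rw [mul_cols, cols_mul_J3, hv3]

theorem cube_eq_zero {M : Matrix (Fin 3) (Fin 3) K} {k : ℕ} (h : M ^ k = 0) : M ^ 3 = 0 := by
  have h1 := Matrix.isNilpotent_charpoly_sub_pow_of_isNilpotent (M := M) ⟨k, h⟩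
  have h2 := h1.eq_zero
  have h3 := Matrix.aeval_self_charpoly M
  rw [sub_eq_zero.1 h2, map_pow, Polynomial.aeval_X, Fintype.card_fin] at h3
  exact h3

theorem gM_eq_bl {f : Fin 14 → K} (h8 : f 8 = 0) (h9 : f 9 = 0) (h10 : f 10 = 0)
    (h11 : f 11 = 0) (h12 : f 12 = 0) (h13 : f 13 = 0) :
    gM f = bl 0 !![f 0, f 2, f 3; f 4, f 1, f 5; f 6, f 7, -f 0 - f 1]
      (-(!![f 0, f 2, f 3; f 4, f 1, f 5; f 6, f 7, -f 0 - f 1])ᵀ) := by
  ext i j
  fin_cases i <;> fin_cases j <;> simp [gM, bl, h8, h9, h10, h11, h12, h13] ; ring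

theorem N1_eq : N1 K = bl 0 !![0, 1, 0; 0, 0, 0; 0, 0, 0]
    (-(!![0, 1, 0; 0, 0, 0; 0, 0, 0] : Matrix (Fin 3) (Fin 3) K)ᵀ) := by
  rw [N1, gM_eq_bl (by simp) (by simp) (by simp) (by simp) (by simp) (by simp)]
  simp

theorem N3_eq : N3 K = bl 0 !![0, 1, 0; 0, 0, 1; 0, 0, 0]
    (-(!![0, 1, 0; 0, 0, 1; 0, 0, 0] : Matrix (Fin 3) (Fin 3) K)ᵀ) := by
  rw [N3, gM_eq_bl (by simp) (by simp) (by simp) (by simp) (by simp) (by simp)]
  simp

theorem Cj_trans {X Y Z : M7 K} (h₁ : Cj X Y) (h₂ : Cj Y Z) : Cj X Z := by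
  obtain ⟨g, h, H, rfl⟩ := h₁
  obtain ⟨g', h', H', rfl⟩ := h₂
  exact ⟨g' * g, h * h', H'.mul H, by simp only [Matrix.mul_assoc]⟩

/-- Module NILA. -/
theorem nila (K : Type*) [Field K] [CharZero K] [IsAlgClosed K] (hF : FRAME_S K)
    (hP : PARAM_S K) : NILA_S K := by
  rintro X hX hX7 ⟨e₀, he₀, hXe₀⟩
  obtain ⟨e, he, hXe⟩ : ∃ e, qq e = 1 ∧ X *ᵥ e = 0 := by
    obtain ⟨a, ha⟩ := IsAlgClosed.exists_pow_nat_eq (qq e₀)⁻¹ (n := 2) (by norm_num)
    refine ⟨a • e₀, ?_, ?_⟩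
    · rw [qq_smul, ha, inv_mul_cancel₀ he₀]
    · rw [Matrix.mulVec_smul, hXe₀, smul_zero]
  obtain ⟨g, h, H, hg⟩ := exists_move hF he
  have hY : h * X * g ∈ g2 K := conj_mem H.symm hX
  have hXY : X = g * (h * X * g) * h := by
    calc X = (g * h) * X * (g * h) := by rw [H.1, Matrix.one_mul, Matrix.mul_one]
      _ = _ := by simp only [Matrix.mul_assoc]
  have hYe : (h * X * g) *ᵥ ee 0 = 0 := by
    rw [← Matrix.mulVec_mulVec, hg, ← Matrix.mulVec_mulVec, hXe, Matrix.mulVec_zero]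
  have hYp : ∀ n : ℕ, (h * X * g) ^ n = h * X ^ n * g := by
    intro n
    induction n with
    | zero => rw [pow_zero, pow_zero, Matrix.mul_one, H.2.1]
    | succ n ih =>
      rw [pow_succ, ih, pow_succ]
      calc h * X ^ n * g * (h * X * g) = h * X ^ n * (g * h) * X * g := by
            simp only [Matrix.mul_assoc]
        _ = _ := by rw [H.1, Matrix.mul_one]; simp only [Matrix.mul_assoc]
  have hY7 : (h * X * g) ^ 7 = 0 := by
    rw [hYp, hX7, Matrix.mul_zero, Matrix.zero_mul]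
  have hCY : Cj (h * X * g) X := ⟨g, h, H, hXY⟩
  obtain ⟨f, hf⟩ := (hP _).1 hY
  have hc : ∀ i, (h * X * g) i 0 = 0 := by
    intro i
    have := congrFun hYe i
    simpa [ee, Matrix.mulVec_single] using this
  rw [hf] at hc hY7 hCY
  have h8 : f 8 = 0 := by simpa [gM] using hc 1
  have h9 : f 9 = 0 := by simpa [gM] using hc 2
  have h10 : f 10 = 0 := by simpa [gM] using hc 3
  have h11 : f 11 = 0 := by simpa [gM] using hc 4
  have h12 : f 12 = 0 := by simpa [gM] using hc 5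
  have h13 : f 13 = 0 := by simpa [gM] using hc 6
  rw [gM_eq_bl h8 h9 h10 h11 h12 h13] at hY7 hCY
  set M : Matrix (Fin 3) (Fin 3) K := !![f 0, f 2, f 3; f 4, f 1, f 5; f 6, f 7, -f 0 - f 1]
  have hM7 : M ^ 7 = 0 := by
    have h0 : (0 : M7 K) = bl 0 0 0 := by
      ext i j
      fin_cases i <;> fin_cases j <;> simp [bl]
    rw [bl_pow, h0] at hY7
    exact bl_inj hY7
  rcases jordan3 (cube_eq_zero hM7) with h0 | ⟨P, hP1, hMP⟩ | ⟨P, hP1, hMP⟩
  · left
    have h0' : bl 0 M (-Mᵀ) = 0 := by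
      rw [h0]
      ext i j
      fin_cases i <;> fin_cases j <;> simp [bl]
    obtain ⟨g', h', -, hX'⟩ := hCY
    rw [hX', h0', Matrix.mul_zero, Matrix.zero_mul]
  · right
    left
    rw [N1_eq]
    exact Cj_trans (conj_bl hP1 hMP) hCY
  · right
    right
    rw [N3_eq]
    exact Cj_trans (conj_bl hP1 hMP) hCY

end Pool.Agent.Lib.MP_d55432_al.G2.H17
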