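import Pool.Agent.Lib.MP_d55432_al.G2.Iface

/-!
# Module ONLY: the shape of the homogeneous images
-/

namespace Pool.Agent.Lib.MP_d55432_al.G2.H17.Only

open Matrix LieAlgebra

variable {K : Type*} [Field K]

theorem exists_line {L : Type*} [AddCommGroup L] [Module K L] {g : L → K} (hg : g ∈ PolyOn K L)
    (x : L) : ∃ q : Polynomial K, ∀ t, q.eval t = g (t • x) := by
  induction hg using Algebra.adjoin_induction with
  | mem g hg =>
    obtain ⟨ψ, rfl⟩ := hg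
    refine ⟨Polynomial.C (ψ x) * Polynomial.X, fun t => ?_⟩
    change _ = ψ (t • x)
    rw [Polynomial.eval_mul, Polynomial.eval_C, Polynomial.eval_X, map_smul, smul_eq_mul,
      mul_comm]
  | algebraMap c =>
    refine ⟨Polynomial.C c, fun t => ?_⟩
    rw [Polynomial.eval_C]
    rfl
  | add g h _ _ ihg ihh =>
    obtain ⟨p, hp⟩ := ihg
    obtain ⟨q, hq⟩ := ihh
    exact ⟨p + q, fun t => by rw [Polynomial.eval_add, hp, hq]; rfl⟩
  | mul g h _ _ ihg ihh =>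
    obtain ⟨p, hp⟩ := ihg
    obtain ⟨q, hq⟩ := ihh
    exact ⟨p * q, fun t => by rw [Polynomial.eval_mul, hp, hq]; rfl⟩

theorem zero_of_line [Infinite K] {L : Type*} [AddCommGroup L] [Module K L] {g : L → K}
    (hg : g ∈ PolyOn K L) (x : L) (h : ∀ t : K, t ≠ 0 → g (t • x) = 0) : g 0 = 0 := by
  obtain ⟨q, hq⟩ := exists_line hg x
  have hq0 : q = 0 := by
    apply Polynomial.eq_zero_of_infinite_isRoot
    refine Set.Infinite.mono ?_ (Set.Infinite.sdiff Set.infinite_univ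
      (Set.finite_singleton (0 : K)))
    rintro t ⟨_, ht⟩
    change q.eval t = 0
    rw [hq, h t ht]
  have := hq 0
  rw [hq0, Polynomial.eval_zero, zero_smul] at this
  exact this.symm

theorem TT_smul (c l m : K) : c • TT l m = TT (c * l) (c * m) := by
  rw [TT, TT, ← Matrix.diagonal_smul]
  congr 1
  funext i
  fin_cases i <;> simp <;> ring

theorem TT_zero : TT (0 : K) 0 = 0 := by
  simp [TT]

theorem TT_mem (hP : PARAM_S K) (l m : K) : TT l m ∈ g2 K := (hP _).2 ⟨_, TT_eq l m⟩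

theorem num [IsAlgClosed K] {α β s r s' r' : K} (hab : ¬(α = 0 ∧ β = 0))
    (h1 : α * s ^ 3 + β * r = 0) (h2 : α * s' ^ 3 + β * r' = 0) (hsr : ¬(s = 0 ∧ r = 0))
    (hsr' : ¬(s' = 0 ∧ r' = 0)) : ∃ c : K, c ≠ 0 ∧ c ^ 2 * s = s' ∧ c ^ 6 * r = r' := by
  by_cases hs : s = 0
  · have hr : r ≠ 0 := fun h => hsr ⟨hs, h⟩
    have hβ : β = 0 := by
      rw [hs] at h1
      have : β * r = 0 := by linear_combination h1
      exact (mul_eq_zero.1 this).resolve_right hr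
    have hα : α ≠ 0 := fun h => hab ⟨h, hβ⟩
    have hs' : s' = 0 := by
      rw [hβ] at h2
      have : α * s' ^ 3 = 0 := by linear_combination h2
      exact pow_eq_zero_iff (by norm_num : (3 : ℕ) ≠ 0) |>.1 ((mul_eq_zero.1 this).resolve_left hα)
    have hr' : r' ≠ 0 := fun h => hsr' ⟨hs', h⟩
    obtain ⟨c, hc⟩ := IsAlgClosed.exists_pow_nat_eq (r' / r) (n := 6) (by norm_num)
    refine ⟨c, ?_, ?_, ?_⟩
    · rintro rfl
      rw [zero_pow (by norm_num)] at hc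
      exact div_ne_zero hr' hr hc.symm
    · rw [hs, hs', mul_zero]
    · rw [hc, div_mul_cancel₀ _ hr]
  · have hβ : β ≠ 0 := by
      rintro rfl
      have : α * s ^ 3 = 0 := by linear_combination h1
      rcases mul_eq_zero.1 this with h | h
      · exact hab ⟨h, rfl⟩
      · exact hs (pow_eq_zero_iff (by norm_num : (3 : ℕ) ≠ 0) |>.1 h)
    have hs' : s' ≠ 0 := by
      rintro rfl
      have : β * r' = 0 := by linear_combination h2
      exact hsr' ⟨rfl, (mul_eq_zero.1 this).resolve_left hβ⟩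
    obtain ⟨c, hc⟩ := IsAlgClosed.exists_pow_nat_eq (s' / s) (n := 2) (by norm_num)
    refine ⟨c, ?_, ?_, ?_⟩
    · rintro rfl
      rw [zero_pow (by norm_num)] at hc
      exact div_ne_zero hs' hs hc.symm
    · rw [hc, div_mul_cancel₀ _ hs]
    · have h6 : c ^ 6 = (s' / s) ^ 3 := by rw [← hc]; ring
      have hcs : (s' / s) * s = s' := div_mul_cancel₀ _ hs
      apply mul_left_cancel₀ hβ
      rw [h6]
      have h3 : (s' / s) ^ 3 * s ^ 3 = s' ^ 3 := by rw [← mul_pow, hcs]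
      linear_combination (s' / s) ^ 3 * h1 - h2 - α * h3

theorem num0 [CharZero K] {l m : K} (hs : l ^ 2 + m ^ 2 + (l + m) ^ 2 = 0)
    (hr : (l * m * (l + m)) ^ 2 = 0) : l = 0 ∧ m = 0 := by
  have hr' := pow_eq_zero_iff (two_ne_zero) |>.1 hr
  rcases mul_eq_zero.1 hr' with h | h
  · rcases mul_eq_zero.1 h with h | h
    · subst h
      have : 2 * m ^ 2 = 0 := by linear_combination hs
      exact ⟨rfl, pow_eq_zero_iff two_ne_zero |>.1
        ((mul_eq_zero.1 this).resolve_left two_ne_zero)⟩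
    · subst h
      have : 2 * l ^ 2 = 0 := by linear_combination hs
      exact ⟨pow_eq_zero_iff two_ne_zero |>.1
        ((mul_eq_zero.1 this).resolve_left two_ne_zero), rfl⟩
  · have hm : m = -l := by linear_combination h
    subst hm
    have : 2 * l ^ 2 = 0 := by linear_combination hs
    have hl : l = 0 := pow_eq_zero_iff two_ne_zero |>.1
      ((mul_eq_zero.1 this).resolve_left two_ne_zero)
    exact ⟨hl, by rw [hl, neg_zero]⟩

theorem Cj_symm {X Y : M7 K} (h : Cj X Y) : Cj Y X := by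
  obtain ⟨g, h, H, rfl⟩ := h
  refine ⟨h, g, H.symm, ?_⟩
  calc X = (h * g) * X * (h * g) := by rw [H.2.1, Matrix.one_mul, Matrix.mul_one]
    _ = _ := by simp only [Matrix.mul_assoc]

theorem Cj_trans {X Y Z : M7 K} (h₁ : Cj X Y) (h₂ : Cj Y Z) : Cj X Z := by
  obtain ⟨g, h, H, rfl⟩ := h₁
  obtain ⟨g', h', H', rfl⟩ := h₂
  exact ⟨g' * g, h * h', H'.mul H, by simp only [Matrix.mul_assoc]⟩

theorem Cj_smul {X Y : M7 K} (c : K) (h : Cj X Y) : Cj (c • X) (c • Y) := by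
  obtain ⟨g, h, H, rfl⟩ := h
  exact ⟨g, h, H, by rw [Matrix.mul_smul, Matrix.smul_mul]⟩

theorem mem_of_Cj {S : Set (g2 K)} (hA : ∀ φ : g2 K ≃ₗ⁅K⁆ g2 K, ∀ x ∈ S, φ x ∈ S)
    {X Y : g2 K} (h : Cj X.1 Y.1) (hX : X ∈ S) : Y ∈ S := by
  obtain ⟨g, h, H, e⟩ := h
  have : Y = conjG g h H X := Subtype.ext (by rw [conjG_coe, e])
  rw [this]
  exact hA _ _ hX

/-- The four nilpotent matrices. -/
def NN (K : Type*) [Field K] : Fin 4 → M7 K := ![N1 K, N2 K, N3 K, N4 K]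

/-- The ranks of their squares. -/
def rk : Fin 4 → ℕ := ![0, 1, 2, 5]

theorem rk_inj : ∀ {i j : Fin 4}, rk j = rk i → j = i := by decide

theorem nil_index {X : M7 K} {ρ : ℕ} (h : (ρ = 0 ∧ Cj (N1 K) X) ∨ (ρ = 1 ∧ Cj (N2 K) X) ∨
    (ρ = 2 ∧ Cj (N3 K) X) ∨ (ρ = 5 ∧ Cj (N4 K) X)) : ∃ i, ρ = rk i ∧ Cj (NN K i) X := by
  rcases h with h | h | h | h
  · exact ⟨0, h⟩
  · exact ⟨1, h⟩
  · exact ⟨2, h⟩
  · exact ⟨3, h⟩

/-- The linear form given by an entry. -/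
def entry (i j : Fin 7) : Module.Dual K (g2 K) where
  toFun X := X.1 i j
  map_add' _ _ := rfl
  map_smul' _ _ := rfl

/-- Module ONLY. -/
theorem only (K : Type*) [Field K] [CharZero K] [IsAlgClosed K] (hPar : PARAM_S K)
    (hSim : SIMPLE_S K) (hSemi : SEMI_S K) (hDiag : DIAG_S K) (hW : WEYL_S K) (hInv : INV_S K)
    (hDense : DENSE_S K) (hRD : RD_S K) (hWall : WALL_S K) (hNil : NIL_S K) : ONLY_S K := by
  intro S k b f hb hf heq hhom h0 hcone hAut hSf hcl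
  have : LieAlgebra.IsSimple K (g2 K) := hSim
  obtain ⟨hI1, hI2, hI3, hI4, hI5⟩ := hInv
  obtain ⟨-, hRD2, -, -, hRD5⟩ := hRD
  by_cases hS0 : S = {0}
  · exact Or.inl hS0
  right
  by_cases hSd : ∀ g ∈ PolyOn K (g2 K), (∀ y ∈ S, g y = 0) → ∀ y, g y = 0
  · exact Or.inl hSd
  right
  -- the relation between the invariants
  obtain ⟨α, β, hrel, hab⟩ : ∃ α β : K,
      (∀ a, α * s2 (f a).1 ^ 3 + β * s6 (f a).1 = 0) ∧ ¬(α = 0 ∧ β = 0) := by
    by_contra hcon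
    push Not at hcon
    apply hSd
    intro g hg hgS
    exact hDense k b f hb hf heq hhom (fun α β h => hcon α β h) g hg (hcl g hg hgS)
  -- a nonzero semisimple value
  obtain ⟨x, hx, hx0⟩ : ∃ x ∈ S, x ≠ 0 := by
    by_contra hcon
    push Not at hcon
    exact hS0 (Set.eq_singleton_iff_unique_mem.2 ⟨h0, hcon⟩)
  obtain ⟨a₀, ha₀, ha₀0⟩ : ∃ a, (LieAlgebra.ad K (g2 K) (f a)).IsSemisimple ∧ f a ≠ 0 := by
    by_contra hcon
    push Not at hcon
    obtain ⟨a, rfl⟩ := hSf hx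
    apply hx0
    apply Subtype.ext
    ext i j
    have := GS.closure_semisimple f hf heq (fun X => entry i j X)
      (Algebra.subset_adjoin ⟨entry i j, rfl⟩) (by
        intro a ha
        rw [hcon a ha]
        rfl) a
    exact this
  obtain ⟨l, m, hlm⟩ := hDiag _ (f a₀).2 (hSemi _ ha₀)
  have hlm0 : l ≠ 0 ∨ m ≠ 0 := by
    by_contra hcon
    push Not at hcon
    rw [hcon.1, hcon.2, TT_zero] at hlm
    obtain ⟨g, h, -, e⟩ := hlm
    apply ha₀0
    apply Subtype.ext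
    rw [e, Matrix.mul_zero, Matrix.zero_mul]
    rfl
  have hrel0 := hrel a₀
  rw [(hI1 _ _ hlm).1, (hI1 _ _ hlm).2, (hI3 l m).1, (hI3 l m).2] at hrel0
  have hsr : ¬(l ^ 2 + m ^ 2 + (l + m) ^ 2 = 0 ∧ (l * m * (l + m)) ^ 2 = 0) := by
    rintro ⟨h1, h2⟩
    obtain ⟨h3, h4⟩ := num0 h1 h2
    rcases hlm0 with h | h
    · exact h h3
    · exact h h4
  have hsTT : ∀ c : K, s2 (c • TT l m) = c ^ 2 * (l ^ 2 + m ^ 2 + (l + m) ^ 2) ∧
      s6 (c • TT l m) = c ^ 6 * (l * m * (l + m)) ^ 2 := by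
    intro c
    rw [(hI2 c _).1, (hI2 c _).2, (hI3 l m).1, (hI3 l m).2]
    exact ⟨rfl, rfl⟩
  -- semisimple values
  have hss : ∀ a, (LieAlgebra.ad K (g2 K) (f a)).IsSemisimple → f a = 0 ∨
      ∃ s : K, s ≠ 0 ∧ Cj (s • TT l m) (f a).1 := by
    intro a ha
    obtain ⟨l', m', hlm'⟩ := hDiag _ (f a).2 (hSemi _ ha)
    have hrel' := hrel a
    rw [(hI1 _ _ hlm').1, (hI1 _ _ hlm').2, (hI3 l' m').1, (hI3 l' m').2] at hrel'
    by_cases hsr' : l' ^ 2 + m' ^ 2 + (l' + m') ^ 2 = 0 ∧ (l' * m' * (l' + m')) ^ 2 = 0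
    · left
      obtain ⟨h3, h4⟩ := num0 hsr'.1 hsr'.2
      rw [h3, h4, TT_zero] at hlm'
      obtain ⟨g, h, -, e⟩ := hlm'
      apply Subtype.ext
      rw [e, Matrix.mul_zero, Matrix.zero_mul]
      rfl
    · right
      obtain ⟨c, hc0, hc2, hc6⟩ := num hab hrel0 hrel' hsr hsr'
      refine ⟨c, hc0, Cj_trans ?_ hlm'⟩
      rw [TT_smul]
      apply hW
      · rw [← hc2]
        ring
      · rw [← hc6]
        ring
  -- the closure of the ray
  have hclosure : ∀ g ∈ PolyOn K (g2 K),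
      (∀ Y : g2 K, (∃ s : K, s ≠ 0 ∧ Cj (s • TT l m) Y.1) → g Y = 0) → ∀ a, g (f a) = 0 := by
    intro g hg hgZ
    have hg0 : g 0 = 0 := by
      apply zero_of_line hg (⟨TT l m, TT_mem hPar l m⟩ : g2 K)
      intro t ht
      apply hgZ
      exact ⟨t, ht, 1, 1, IsG.one, by
        rw [Matrix.one_mul, Matrix.mul_one]
        rfl⟩
    apply GS.closure_semisimple f hf heq g hg
    intro a ha
    rcases hss a ha with h | h
    · rw [h, hg0]
    · exact hgZ _ h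
  -- elements of `S`
  have hSZ : ∀ X ∈ S, X.1 ^ 7 ≠ 0 → ∃ s : K, s ≠ 0 ∧ Cj (s • TT l m) X.1 := by
    intro X hX hX7
    by_cases hreg : Reg l m
    · obtain ⟨a, rfl⟩ := hSf hX
      have hsr' : ¬(s2 (f a).1 = 0 ∧ s6 (f a).1 = 0) := fun h =>
        hX7 ((hRD5 _ (f a).2).2 h)
      obtain ⟨c, hc0, hc2, hc6⟩ := num hab hrel0 (hrel a) hsr hsr'
      refine ⟨c, hc0, ?_⟩
      rw [TT_smul]
      apply hRD2 _ (f a).2
      · unfold Reg at hreg ⊢
        have : c * l * (c * m) * (c * l + c * m) * (c * l - c * m) * (2 * (c * l) + c * m) *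
            (c * l + 2 * (c * m)) =
            c ^ 6 * (l * m * (l + m) * (l - m) * (2 * l + m) * (l + 2 * m)) := by ring
        rw [this]
        exact mul_ne_zero (pow_ne_zero 6 hc0) hreg
      · rw [← hc2]
        ring
      · rw [← hc6]
        ring
    · rcases hWall l m hlm0 hreg X (fun g hg hgZ => by
        obtain ⟨a, rfl⟩ := hSf hX
        exact hclosure g hg hgZ a) with h | h
      · exact h
      · exfalso
        apply hX7
        exact pow_eq_zero_of_le (by norm_num) h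
  -- the ray is contained in `S`
  obtain ⟨X₀, hX₀, hX₀7⟩ : ∃ X ∈ S, X.1 ^ 7 ≠ 0 := by
    by_contra hcon
    push Not at hcon
    have e2 := hcl _ hI4 (fun y hy => ((hRD5 _ y.2).1 (hcon y hy)).1) a₀
    have e6 := hcl _ hI5 (fun y hy => ((hRD5 _ y.2).1 (hcon y hy)).2) a₀
    change s2 (f a₀).1 = 0 at e2
    change s6 (f a₀).1 = 0 at e6
    rw [(hI1 _ _ hlm).1, (hI3 l m).1] at e2
    rw [(hI1 _ _ hlm).2, (hI3 l m).2] at e6
    exact hsr ⟨e2, e6⟩
  have hZS : ∀ Y : g2 K, (∃ s : K, s ≠ 0 ∧ Cj (s • TT l m) Y.1) → Y ∈ S := by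
    rintro Y ⟨s, hs, hY⟩
    obtain ⟨c, hc, hX⟩ := hSZ X₀ hX₀ hX₀7
    refine mem_of_Cj hAut (X := (s / c) • X₀) ?_ (hcone _ _ hX₀)
    have h1 : Cj ((s / c) • X₀.1) ((s / c) • c • TT l m) := Cj_smul _ (Cj_symm hX)
    rw [smul_smul, div_mul_cancel₀ _ hc] at h1
    exact Cj_trans h1 hY
  refine ⟨l, m, {ρ | ∃ X ∈ S, X ≠ 0 ∧ X.1 ^ 7 = 0 ∧ (X.1 * X.1).rank = ρ}, hlm0, ?_, ?_, ?_⟩
  · rintro _ ⟨X, -, hX0, hX7, rfl⟩
    have hX0' : X.1 ≠ 0 := fun h => hX0 (Subtype.ext h)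
    rcases hNil.1 X.1 X.2 hX7 hX0' with h | h | h | h <;> simp [h.1]
  · rintro ⟨X, hX, hX0, hX7, hr⟩
    by_contra hreg
    have h5 := (hNil.2 X.1 X.2 hX7).1 hr
    rcases hWall l m hlm0 hreg X (fun g hg hgZ => by
      obtain ⟨a, rfl⟩ := hSf hX
      exact hclosure g hg hgZ a) with ⟨s, hs, h⟩ | h
    · obtain ⟨h2, h6⟩ := (hRD5 _ X.2).1 hX7
      rw [(hI1 _ _ h).1, (hsTT s).1] at h2
      rw [(hI1 _ _ h).2, (hsTT s).2] at h6
      exact hsr ⟨(mul_eq_zero.1 h2).resolve_left (pow_ne_zero 2 hs),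
        (mul_eq_zero.1 h6).resolve_left (pow_ne_zero 6 hs)⟩
    · exact h5 h
  · ext X
    constructor
    · intro hX
      by_cases hX0 : X = 0
      · exact Or.inl hX0
      right
      by_cases hX7 : X.1 ^ 7 = 0
      · right
        exact ⟨hX0, hX7, X, hX, hX0, hX7, rfl⟩
      · left
        exact hSZ X hX hX7
    · rintro (rfl | h | ⟨hX0, hX7, X', hX', hX'0, hX'7, hr⟩)
      · exact h0
      · exact hZS X h
      · have hX0' : X.1 ≠ 0 := fun h => hX0 (Subtype.ext h)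
        have hX'0' : X'.1 ≠ 0 := fun h => hX'0 (Subtype.ext h)
        apply mem_of_Cj hAut (X := X') _ hX'
        obtain ⟨i, hi, hi'⟩ := nil_index (hNil.1 X.1 X.2 hX7 hX0')
        obtain ⟨j, hj, hj'⟩ := nil_index (hNil.1 X'.1 X'.2 hX'7 hX'0')
        rw [hi, hj] at hr
        rw [rk_inj hr] at hj'
        exact Cj_trans (Cj_symm hj') hi'

end Pool.Agent.Lib.MP_d55432_al.G2.H17.Only
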